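import Mathlib

open Finset

namespace Pool.Agent.Results.MP_7d0087_nt.Seven

/-- The binomial coefficient of a rational `a`. -/
def bin (a : ℚ) (k : ℕ) : ℚ := (∏ i ∈ range k, (a - i)) / k.factorial

/-- The sum `S_p`. -/
def S (p : ℕ) : ℚ := ∑ k ∈ range p, bin (-1 / 2) k * bin (-1 / 3) k / (-4) ^ k

/-- `x - y` lies in `p ^ 2 ℤ_(p)`. -/
def Cong (p : ℕ) (x y : ℚ) : Prop := ¬ p ∣ ((x - y) / p ^ 2).den

theorem result : ¬ ∀ p : ℕ, p.Prime → 5 < p → p % 3 = 1 → ∀ A B : ℤ, (p : ℤ) = A ^ 2 + 3 * B ^ 2 →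
    A ≡ 1 [ZMOD 3] → ¬ 5 ∣ B → (A ≡ -B [ZMOD 5] ∨ A ≡ -2 * B [ZMOD 5]) →
    Cong p (S p) (jacobiSym p 5 * (A + 3 * B - p / (A + 3 * B))) := fun h => by
  have := h 7 (by norm_num) (by norm_num) (by norm_num) (-2) 1 (by norm_num) (by decide)
    (by decide) (by decide)
  have e : jacobiSym ((7 : ℕ) : ℤ) 5 = -1 := by norm_num
  rw [e] at this
  exact this (by decide +kernel)

end Pool.Agent.Results.MP_7d0087_nt.Seven
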